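import Pool.Agent.H239R2.Cover.Orient

set_option autoImplicit false

/-!
Star decompositions of graphs with `m` edge-disjoint connected spanning subgraphs.
-/

namespace Pool.Agent.TH574.StarDec

open Finset

/-- A star with centre `c`. -/
def IsStar {W : Type} (T : SimpleGraph W) (c : W) : Prop :=
  ∀ a b, T.Adj a b ↔ a ≠ b ∧ (a = c ∨ b = c)

theorem star_iso {W W' : Type} [Fintype W] [Fintype W'] {T : SimpleGraph W} {T' : SimpleGraph W'}
    {c : W} {c' : W'} (h : IsStar T c) (h' : IsStar T' c')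
    (hcard : Fintype.card W = Fintype.card W') : Nonempty (T ≃g T') := by
  classical
  let e₀ : W ≃ W' := Fintype.equivOfCardEq hcard
  let e : W ≃ W' := e₀.trans (Equiv.swap (e₀ c) c')
  have hc : e c = c' := by simp [e]
  refine ⟨⟨e, ?_⟩⟩
  intro a b
  rw [h' (e a) (e b), h a b]
  have h1 : ∀ x, e x = c' ↔ x = c := by
    intro x
    constructor
    · intro hx
      exact e.injective (hx.trans hc.symm)
    · rintro rfl; exact hc
  rw [h1, h1]
  simp

theorem card_edges_star {W : Type} [Fintype W] [DecidableEq W] {T : SimpleGraph W}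
    [DecidableRel T.Adj] {c : W} (h : IsStar T c) :
    T.edgeFinset.card + 1 = Fintype.card W := by
  have h1 : T.edgeFinset = (univ.erase c).image (fun w => s(c, w)) := by
    ext e
    induction e using Sym2.ind with
    | _ a b =>
      rw [SimpleGraph.mem_edgeFinset, SimpleGraph.mem_edgeSet, h a b]
      simp only [mem_image, mem_erase, mem_univ, and_true]
      constructor
      · rintro ⟨hab, rfl | rfl⟩
        · exact ⟨b, fun h => hab h.symm, rfl⟩
        · exact ⟨a, hab, Sym2.eq_swap⟩
      · rintro ⟨w, hw, he⟩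
        rw [Sym2.eq_iff] at he
        rcases he with ⟨rfl, rfl⟩ | ⟨rfl, rfl⟩
        · exact ⟨fun h => hw h.symm, Or.inl rfl⟩
        · exact ⟨hw, Or.inr rfl⟩
  have h2 : ((univ.erase c).image (fun w => s(c, w))).card = (univ.erase c).card := by
    apply card_image_of_injOn
    intro x _ y _ hxy
    simp only [Sym2.eq_iff] at hxy
    rcases hxy with ⟨_, h⟩ | ⟨h1, h2⟩
    · exact h
    · exact h2.trans h1
  rw [h1, h2, card_erase_of_mem (mem_univ c), card_univ]
  have : 0 < Fintype.card W := Fintype.card_pos_iff.mpr ⟨c⟩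
  omega

/-- A finite set whose size is a multiple of `m` splits into classes of size `m`. -/
theorem exists_blocks {α : Type} (S : Finset α) (m : ℕ) (h : m ∣ S.card) :
    ∃ (k : ℕ), Nonempty ({x // x ∈ S} ≃ Fin k × Fin m) := by
  classical
  obtain ⟨k, hk⟩ := h
  refine ⟨k, ⟨Fintype.equivOfCardEq ?_⟩⟩
  simp [hk, mul_comm]

variable {V : Type} [Fintype V] [DecidableEq V]

theorem exists_star_decomposition (G : SimpleGraph V) [DecidableRel G.Adj]
    {W : Type} [Fintype W] [DecidableEq W] (T : SimpleGraph W) [DecidableRel T.Adj]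
    (c : W) (hT : IsStar T c)
    (hF : ∃ F : Fin T.edgeFinset.card → SimpleGraph V,
          (∀ i, F i ≤ G ∧ (F i).Connected) ∧
          Pairwise (fun i j => Disjoint (F i) (F j)))
    (hdvd : T.edgeFinset.card ∣ G.edgeFinset.card) :
    ∃ (n : ℕ) (H : Fin n → G.Subgraph),
        (∀ i, Nonempty (T ≃g (H i).coe)) ∧
        Pairwise (fun i j => Disjoint (H i).edgeSet (H j).edgeSet) ∧
        (∀ e ∈ G.edgeSet, ∃ i, e ∈ (H i).edgeSet) := by
  classical
  rcases Nat.eq_zero_or_pos T.edgeFinset.card with hm0 | hm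
  · -- no edges
    rw [hm0, zero_dvd_iff] at hdvd
    refine ⟨0, Fin.elim0, fun i => i.elim0, fun i => i.elim0, ?_⟩
    intro e he
    rw [Finset.card_eq_zero] at hdvd
    have : e ∈ G.edgeFinset := SimpleGraph.mem_edgeFinset.mpr he
    rw [hdvd] at this
    exact absurd this (Finset.notMem_empty e)
  set m := T.edgeFinset.card with hmdef
  obtain ⟨F, hF1, hF2⟩ := hF
  let E := {e : Sym2 V // e ∈ G.edgeFinset}
  let src : E → V := fun e => (Quot.out e.1).1
  let dst : E → V := fun e => (Quot.out e.1).2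
  have hsd : ∀ e : E, s(src e, dst e) = e.1 := fun e => Quot.out_eq e.1
  have hadj : ∀ e : E, G.Adj (src e) (dst e) := by
    intro e
    have h1 := SimpleGraph.mem_edgeFinset.mp e.2
    rw [← hsd e] at h1
    exact h1
  let I : Fin m → Finset E := fun j => univ.filter (fun e => (F j).Adj (src e) (dst e))
  have hd : ∀ i j, i ≠ j → Disjoint (I i) (I j) := by
    intro i j hij
    rw [Finset.disjoint_left]
    intro e h1 h2
    rw [Finset.mem_filter] at h1 h2
    have h3 := hF2 hij
    have h4 := (disjoint_iff.mp h3)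
    have h5 : (F i ⊓ F j).Adj (src e) (dst e) := ⟨h1.2, h2.2⟩
    rw [h4] at h5
    exact h5
  have hI : ∀ j, H239R2.Cover.Connects src dst (I j) := by
    intro j X hX hXu
    obtain ⟨u, hu⟩ := hX
    obtain ⟨v, hv⟩ : ∃ v, v ∉ X := by
      by_contra hcon
      push Not at hcon
      exact hXu (Finset.eq_univ_iff_forall.mpr hcon)
    obtain ⟨p⟩ := (hF1 j).2.preconnected u v
    obtain ⟨d, _, h1, h2⟩ := p.exists_boundary_dart (X : Set V) hu hv
    have hGd : G.Adj d.fst d.snd := (hF1 j).1 d.adj
    let e : E := ⟨s(d.fst, d.snd), SimpleGraph.mem_edgeFinset.mpr hGd⟩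
    have he := hsd e
    have he' : s(src e, dst e) = s(d.fst, d.snd) := he
    refine ⟨e, ?_, ?_⟩
    · rw [Finset.mem_filter]
      refine ⟨Finset.mem_univ _, ?_⟩
      rw [Sym2.eq_iff] at he'
      rcases he' with ⟨h3, h4⟩ | ⟨h3, h4⟩
      · rw [h3, h4]; exact d.adj
      · rw [h3, h4]; exact d.adj.symm
    · unfold H239R2.Cover.Leaves
      have h1' : d.fst ∈ X := h1
      have h2' : d.snd ∉ X := h2
      rw [Sym2.eq_iff] at he'
      rcases he' with ⟨h3, h4⟩ | ⟨h3, h4⟩
      · rw [h3, h4]; tauto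
      · rw [h3, h4]; tauto
  have hcardE : Fintype.card E = G.edgeFinset.card := Fintype.card_coe G.edgeFinset
  have : NeZero m := ⟨hm.ne'⟩
  obtain ⟨o, ho⟩ := H239R2.Cover.orientation_of_packing src dst m hm I hd hI (fun _ => 0) (by
    rw [Finset.sum_const_zero, hcardE]
    exact ((ZMod.natCast_eq_zero_iff _ _).mpr hdvd).symm)
  -- out-edges
  let O : V → Finset E := fun v => univ.filter (fun e => H239R2.Cover.tail src dst o e = v)
  have hO : ∀ v, m ∣ (O v).card := by
    intro v
    exact (ZMod.natCast_eq_zero_iff _ _).mp (ho v)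
  let hd' : E → V := fun e => if o e then dst e else src e
  have htl : ∀ e, s(H239R2.Cover.tail src dst o e, hd' e) = e.1 := by
    intro e
    unfold H239R2.Cover.tail
    by_cases h : o e
    · simp only [hd', h, if_true]; exact hsd e
    · simp only [hd', h, if_false, Bool.false_eq_true]; rw [Sym2.eq_swap]; exact hsd e
  have hadj' : ∀ e : E, G.Adj (H239R2.Cover.tail src dst o e) (hd' e) := by
    intro e
    have h1 := SimpleGraph.mem_edgeFinset.mp e.2
    rw [← htl e] at h1
    exact h1
  choose k g' using fun v => exists_blocks (O v) m (hO v)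
  let g := fun v => (g' v).some
  -- index type of the stars
  let J := Σ v : V, Fin (k v)
  -- leaves of a star
  let ed : (j : J) → Fin m → E := fun j b => ((g j.1).symm (j.2, b)).1
  have hedO : ∀ j b, ed j b ∈ O j.1 := fun j b => ((g j.1).symm (j.2, b)).2
  have hedt : ∀ j b, H239R2.Cover.tail src dst o (ed j b) = j.1 := by
    intro j b
    exact (Finset.mem_filter.mp (hedO j b)).2
  have hedinj : ∀ j b j' b', ed j b = ed j' b' → j = j' ∧ b = b' := by
    intro j b j' b' h
    have h1 : j.1 = j'.1 := by rw [← hedt j b, ← hedt j' b', h]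
    obtain ⟨v, a⟩ := j
    obtain ⟨v', a'⟩ := j'
    simp only at h1
    subst h1
    have h2 : (g v).symm (a, b) = (g v).symm (a', b') := Subtype.ext h
    have h3 := (g v).symm.injective h2
    rw [Prod.mk.injEq] at h3
    exact ⟨by rw [h3.1], h3.2⟩
  have hedval : ∀ j b, s(j.1, hd' (ed j b)) = (ed j b).1 := by
    intro j b
    rw [← htl (ed j b), hedt]
  have hlfinj : ∀ j, Function.Injective (fun b => hd' (ed j b)) := by
    intro j b b' h
    have h1 : (ed j b).1 = (ed j b').1 := by
      rw [← hedval j b, ← hedval j b']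
      simp only at h
      rw [h]
    exact (hedinj j b j b' (Subtype.ext h1)).2
  have hGadj : ∀ j b, G.Adj j.1 (hd' (ed j b)) := by
    intro j b
    have := hadj' (ed j b)
    rwa [hedt] at this
  let H₀ : J → G.Subgraph := fun j =>
    { verts := insert j.1 (Set.range (fun b => hd' (ed j b)))
      Adj := fun x y => (x = j.1 ∧ ∃ b, y = hd' (ed j b)) ∨ (y = j.1 ∧ ∃ b, x = hd' (ed j b))
      adj_sub := by
        rintro x y (⟨rfl, b, rfl⟩ | ⟨rfl, b, rfl⟩)
        · exact hGadj j b
        · exact (hGadj j b).symm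
      edge_vert := by
        rintro x y (⟨rfl, b, rfl⟩ | ⟨rfl, b, rfl⟩)
        · exact Set.mem_insert _ _
        · exact Set.mem_insert_of_mem _ ⟨b, rfl⟩
      symm := ⟨by
        rintro x y (h | h)
        · exact Or.inr h
        · exact Or.inl h⟩ }
  have hH₀e : ∀ j (e : Sym2 V), e ∈ (H₀ j).edgeSet ↔ ∃ b, e = (ed j b).1 := by
    intro j e
    induction e using Sym2.ind with
    | _ x y =>
      rw [SimpleGraph.Subgraph.mem_edgeSet]
      constructor
      · rintro (⟨rfl, b, rfl⟩ | ⟨rfl, b, rfl⟩)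
        · exact ⟨b, hedval j b⟩
        · exact ⟨b, by rw [Sym2.eq_swap]; exact hedval j b⟩
      · rintro ⟨b, hb⟩
        rw [← hedval j b, Sym2.eq_iff] at hb
        rcases hb with ⟨h1, h2⟩ | ⟨h1, h2⟩
        · exact Or.inl ⟨h1, b, h2⟩
        · exact Or.inr ⟨h2, b, h1⟩
  have hnotc : ∀ j b, hd' (ed j b) ≠ j.1 := fun j b h => (hGadj j b).ne h.symm
  have hiso : ∀ j, Nonempty (T ≃g (H₀ j).coe) := by
    intro j
    have hstar : IsStar (H₀ j).coe ⟨j.1, Set.mem_insert _ _⟩ := by
      rintro ⟨x, hx⟩ ⟨y, hy⟩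
      rw [SimpleGraph.Subgraph.coe_adj]
      simp only [ne_eq, Subtype.mk.injEq]
      constructor
      · rintro (⟨rfl, b, rfl⟩ | ⟨rfl, b, rfl⟩)
        · exact ⟨fun h => hnotc j b h.symm, Or.inl rfl⟩
        · exact ⟨fun h => hnotc j b h, Or.inr rfl⟩
      · rintro ⟨hxy, rfl | rfl⟩
        · rcases hy with rfl | ⟨b, rfl⟩
          · exact absurd rfl hxy
          · exact Or.inl ⟨rfl, b, rfl⟩
        · rcases hx with rfl | ⟨b, rfl⟩
          · exact absurd rfl hxy
          · exact Or.inr ⟨rfl, b, rfl⟩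
    have hfin : Fintype (H₀ j).verts := Fintype.ofFinite _
    refine star_iso hT hstar ?_
    have h1 : Fintype.card W = m + 1 := (card_edges_star hT).symm
    have h2 : (H₀ j).verts = ((insert j.1 (univ.image (fun b => hd' (ed j b))) : Finset V) :
        Set V) := by
      rw [Finset.coe_insert, Finset.coe_image, Finset.coe_univ, Set.image_univ]
    have h3 : (insert j.1 (univ.image (fun b => hd' (ed j b))) : Finset V).card = m + 1 := by
      rw [Finset.card_insert_of_notMem, Finset.card_image_of_injective _ (hlfinj j),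
        Finset.card_univ, Fintype.card_fin]
      rw [Finset.mem_image]
      rintro ⟨b, _, hb⟩
      exact hnotc j b hb
    rw [h1, ← h3, ← Nat.card_eq_fintype_card]
    change _ = (H₀ j).verts.ncard
    rw [h2, Set.ncard_coe_finset]
  let eqJ : Fin (Fintype.card J) ≃ J := (Fintype.equivFin J).symm
  refine ⟨Fintype.card J, fun i => H₀ (eqJ i), fun i => hiso _, ?_, ?_⟩
  · intro i i' hii'
    rw [Set.disjoint_left]
    intro e h1 h2
    rw [hH₀e] at h1 h2
    obtain ⟨b, hb⟩ := h1
    obtain ⟨b', hb'⟩ := h2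
    have h3 : ed (eqJ i) b = ed (eqJ i') b' := Subtype.ext (hb.symm.trans hb')
    exact hii' (eqJ.injective (hedinj _ _ _ _ h3).1)
  · intro e he
    let e' : E := ⟨e, SimpleGraph.mem_edgeFinset.mpr he⟩
    let v := H239R2.Cover.tail src dst o e'
    have hv : e' ∈ O v := Finset.mem_filter.mpr ⟨Finset.mem_univ _, rfl⟩
    let ab := g v ⟨e', hv⟩
    refine ⟨eqJ.symm ⟨v, ab.1⟩, ?_⟩
    change e ∈ (H₀ (eqJ (eqJ.symm ⟨v, ab.1⟩))).edgeSet
    rw [Equiv.apply_symm_apply, hH₀e]
    refine ⟨ab.2, ?_⟩
    have h1 : ed ⟨v, ab.1⟩ ab.2 = e' := by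
      simp only [ed]
      have : (g v).symm (ab.1, ab.2) = ⟨e', hv⟩ := by
        rw [Prod.mk.eta]; exact (g v).symm_apply_apply _
      rw [this]
    rw [h1]

end Pool.Agent.TH574.StarDec
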